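import Mathlib

set_option linter.unusedVariables false

namespace Pool.Agent.Results.MP_b92640_nt.Exists

open Finset Filter Pointwise Classical

def S (p : ℕ) : Finset ℕ := (range p).image fun x => 2 * p * x + x ^ 2 % p

lemma S_lt {p s : ℕ} (h : s ∈ S p) : s < 2 * p ^ 2 := by
  obtain ⟨x, hx, rfl⟩ := mem_image.1 h
  have hx := mem_range.1 hx
  have := Nat.mod_lt (x ^ 2) (by omega : 0 < p)
  nlinarith

lemma split {p a b c d : ℕ} (hb : b < 2 * p) (hd : d < 2 * p) (h : 2 * p * a + b = 2 * p * c + d) :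
    a = c ∧ b = d := by
  have h1 := congrArg (· / (2 * p)) h
  have h2 := congrArg (· % (2 * p)) h
  simp only [Nat.mul_add_div (by omega : 0 < 2 * p), Nat.div_eq_of_lt hb, Nat.div_eq_of_lt hd,
    Nat.mul_add_mod, Nat.mod_eq_of_lt hb, Nat.mod_eq_of_lt hd] at h1 h2
  omega

lemma card_S (p : ℕ) : (S p).card = p := by
  rw [S, card_image_of_injOn, card_range]
  intro x hx y hy h
  have hp : 0 < p := by have := mem_range.1 hx; omega
  have h1 := Nat.mod_lt (x ^ 2) hp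
  have h2 := Nat.mod_lt (y ^ 2) hp
  exact (split (by omega) (by omega) h).1

lemma sidon {p : ℕ} (hp : p.Prime) (h2 : 2 < p) {a b c d : ℕ} (ha : a ∈ S p) (hb : b ∈ S p)
    (hc : c ∈ S p) (hd : d ∈ S p) (h : a + d = b + c) : a = b ∨ a = c := by
  obtain ⟨x, hx, rfl⟩ := mem_image.1 ha
  obtain ⟨y, hy, rfl⟩ := mem_image.1 hb
  obtain ⟨z, hz, rfl⟩ := mem_image.1 hc
  obtain ⟨w, hw, rfl⟩ := mem_image.1 hd
  have m1 := Nat.mod_lt (x ^ 2) hp.pos
  have m2 := Nat.mod_lt (y ^ 2) hp.pos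
  have m3 := Nat.mod_lt (z ^ 2) hp.pos
  have m4 := Nat.mod_lt (w ^ 2) hp.pos
  obtain ⟨e1, e2⟩ := split (p := p) (a := x + w) (b := x ^ 2 % p + w ^ 2 % p) (c := y + z)
    (d := y ^ 2 % p + z ^ 2 % p) (by omega) (by omega) (by rw [mul_add, mul_add]; omega)
  haveI := Fact.mk hp
  have f1 : (x : ZMod p) + w = y + z := by exact_mod_cast congrArg (Nat.cast : ℕ → ZMod p) e1
  have f2 : (x : ZMod p) ^ 2 + w ^ 2 = y ^ 2 + z ^ 2 := by
    have := congrArg (Nat.cast : ℕ → ZMod p) e2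
    simpa using this
  have f3 : (2 : ZMod p) ≠ 0 := by
    intro h0
    have : ((2 : ℕ) : ZMod p) = 0 := by exact_mod_cast h0
    rw [ZMod.natCast_eq_zero_iff] at this
    exact absurd (Nat.le_of_dvd two_pos this) (by omega)
  have f4 : (2 : ZMod p) * (((x : ZMod p) - y) * (x - z)) = 0 := by
    have : (w : ZMod p) = y + z - x := by linear_combination f1
    rw [this] at f2
    linear_combination f2
  have g : ∀ u v : ℕ, u ∈ range p → v ∈ range p → (u : ZMod p) - v = 0 → u = v := by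
    intro u v hu hv h
    rw [sub_eq_zero, ZMod.natCast_eq_natCast_iff', Nat.mod_eq_of_lt (mem_range.1 hu),
      Nat.mod_eq_of_lt (mem_range.1 hv)] at h
    exact h
  rcases mul_eq_zero.1 ((mul_eq_zero.1 f4).resolve_left f3) with h | h
  · left; rw [g _ _ hx hy h]
  · right; rw [g _ _ hx hz h]

lemma energy {p : ℕ} (hp : p.Prime) (h2 : 2 < p) (B : Finset ℕ) :
    (S p).addEnergy B ≤ p * B.card + B.card * B.card := by
  rw [addEnergy, ← card_filter_add_card_filter_not (fun x : (ℕ × ℕ) × ℕ × ℕ => x.2.1 = x.2.2)]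
  refine add_le_add ?_ ?_
  · conv_rhs => rw [← card_S p, ← card_product]
    refine card_le_card_of_injOn (fun x => (x.1.1, x.2.1)) ?_ ?_
    · intro x hx
      simp only [coe_filter, mem_filter, mem_product, Set.mem_ofPred_eq] at hx
      simp [hx.1.1.1.1, hx.1.1.2.1]
    · rintro ⟨⟨a, b⟩, c, d⟩ hx ⟨⟨a', b'⟩, c', d'⟩ hy h
      simp only [coe_filter, mem_filter, mem_product, Set.mem_ofPred_eq, Prod.mk.injEq] at hx hy h ⊢
      omega
  · rw [← card_product]
    refine card_le_card_of_injOn (fun x => x.2) ?_ ?_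
    · intro x hx
      simp only [coe_filter, mem_filter, mem_product, Set.mem_ofPred_eq] at hx
      simp [hx.1.1.2.1, hx.1.1.2.2]
    · rintro ⟨⟨a, b⟩, c, d⟩ hx ⟨⟨a', b'⟩, c', d'⟩ hy h
      simp only [coe_filter, mem_filter, mem_product, Set.mem_ofPred_eq, Prod.mk.injEq] at hx hy h ⊢
      have := sidon hp h2 hx.1.1.1.1 hx.1.1.1.2 hy.1.1.1.1 hy.1.1.1.2 (by omega)
      omega

noncomputable def pr (v : ℕ) : ℕ :=
  (Nat.exists_prime_lt_and_le_two_mul (2 ^ v) (by positivity)).choose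

lemma pr_spec (v : ℕ) : (pr v).Prime ∧ 2 ^ v < pr v ∧ pr v ≤ 2 * 2 ^ v :=
  (Nat.exists_prime_lt_and_le_two_mul (2 ^ v) (by positivity)).choose_spec

def A : Set ℕ := {a | a = 0 ∨ ∃ v, ∃ s ∈ S (pr v), a = 16 * (2 ^ v) ^ 2 + s}

lemma block (B : Set ℕ) (hB : B + B = Set.univ) (v : ℕ) (hv : 1 ≤ v) (n : ℕ)
    (hn : 32 * (2 ^ v) ^ 2 ≤ n) : (2 ^ v) ^ 2 ≤ 2 * #{a ∈ Ioc 0 n | a ∈ A + B} := by
  obtain ⟨hp, h1, h2⟩ := pr_spec v
  have hq : 2 ≤ 2 ^ v := by simpa using Nat.pow_le_pow_right two_pos hv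
  set q := 2 ^ v with hqv
  set p := pr v with hpv
  set B' := {b ∈ range (8 * q ^ 2) | b ∈ B}
  have hk : 8 * q ^ 2 ≤ B'.card * B'.card := by
    refine le_trans ?_ card_add_le
    conv_lhs => rw [← card_range (8 * q ^ 2)]
    refine card_le_card fun m hm => ?_
    obtain ⟨b, hb, c, hc, rfl⟩ := Set.mem_add.1 (hB ▸ Set.mem_univ m)
    have := mem_range.1 hm
    exact add_mem_add (mem_filter.2 ⟨mem_range.2 (by omega), hb⟩)
      (mem_filter.2 ⟨mem_range.2 (by omega), hc⟩)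
  have hk2 : p ≤ B'.card := by nlinarith
  have h3 := (le_card_add_mul_addEnergy (S p) B').trans
    (Nat.mul_le_mul_left _ (energy hp (by omega) B'))
  rw [card_S] at h3
  have h4 : p ^ 2 ≤ 2 * (S p + B').card := by
    have h5 : p * B'.card ≤ B'.card * B'.card := Nat.mul_le_mul_right _ hk2
    refine le_of_mul_le_mul_right (a := B'.card ^ 2) (h3.trans ?_) (pow_pos (by omega) _)
    nlinarith
  have h5 : (S p + B').card ≤ #{a ∈ Ioc 0 n | a ∈ A + B} := by
    refine card_le_card_of_injOn (fun x => 16 * q ^ 2 + x) ?_ fun x _ y _ h => by simpa using h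
    intro x hx
    obtain ⟨s, hs, b, hb, rfl⟩ := mem_add.1 (mem_coe.1 hx)
    have a1 := S_lt hs
    obtain ⟨a2, a3⟩ := mem_filter.1 hb
    have a2 := mem_range.1 a2
    refine mem_coe.2 (mem_filter.2 ⟨mem_Ioc.2 ⟨by positivity, by nlinarith⟩, ?_⟩)
    simp only [← add_assoc]
    exact Set.add_mem_add (Or.inr ⟨v, s, hs, rfl⟩) a3
  nlinarith

lemma count_le (n : ℕ) (hn : n ≠ 0) : #{a ∈ Ioc 0 n | a ∈ A} ^ 2 ≤ 16 * n := by
  set V := Nat.log 4 n
  have h1 : 4 ^ V ≤ n := Nat.pow_log_le_self 4 hn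
  have e : ∀ v, (2 ^ v) ^ 2 = 4 ^ v := fun v => by rw [← pow_mul, mul_comm, pow_mul]; norm_num
  have h2 : #{a ∈ Ioc 0 n | a ∈ A} ≤ ∑ v ∈ range (V + 1), 2 * 2 ^ v := by
    refine (card_le_card (t := (range (V + 1)).biUnion fun v =>
      (S (pr v)).image fun s => 16 * (2 ^ v) ^ 2 + s) ?_).trans (card_biUnion_le.trans
        (sum_le_sum fun v _ => card_image_le.trans (by rw [card_S]; exact (pr_spec v).2.2)))
    intro a ha
    obtain ⟨ha, h⟩ := mem_filter.1 ha
    obtain ⟨a1, a2⟩ := mem_Ioc.1 ha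
    rcases h with rfl | ⟨v, s, hs, rfl⟩
    · omega
    · refine mem_biUnion.2 ⟨v, mem_range.2 (Nat.lt_succ_of_le ?_), mem_image_of_mem _ hs⟩
      refine Nat.le_log_of_pow_le (by norm_num) ?_
      rw [e] at a2
      omega
  have h3 : ∀ W, ∑ v ∈ range (W + 1), 2 * 2 ^ v ≤ 4 * 2 ^ W := by
    intro W
    induction W with
    | zero => simp
    | succ W ih => rw [sum_range_succ, pow_succ]; omega
  have h4 := Nat.pow_le_pow_left (h2.trans (h3 V)) 2
  rw [mul_pow, e] at h4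
  omega

theorem result : ∃ A : Set ℕ, 0 ∈ A ∧ A ≠ {0, 1} ∪ {p | p.Prime} ∧
    Tendsto (fun n : ℕ => (#{a ∈ Ioc 0 n | a ∈ A} : ℝ) / n) atTop (nhds 0) ∧
    ∀ B : Set ℕ, 0 ∈ B → B + B = Set.univ → 0 < schnirelmannDensity (A + B) := by
  refine ⟨A, Or.inl rfl, fun h => ?_, ?_, fun B h0 hB => ?_⟩
  · have : 1 ∈ A := by rw [h]; simp
    rcases this with h | ⟨v, s, -, h⟩
    · omega
    · have : 0 < (2 ^ v) ^ 2 := by positivity
      omega
  · have h1 : Tendsto (fun n : ℕ => 4 / Real.sqrt n) atTop (nhds 0) :=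
      tendsto_const_nhds.div_atTop (Real.tendsto_sqrt_atTop.comp tendsto_natCast_atTop_atTop)
    refine squeeze_zero' (Eventually.of_forall fun n => by positivity) ?_ h1
    filter_upwards [eventually_gt_atTop 0] with n hn
    have hn' : (0 : ℝ) < n := by exact_mod_cast hn
    have h2 : (#{a ∈ Ioc 0 n | a ∈ A} : ℝ) ^ 2 ≤ 16 * n := by exact_mod_cast count_le n hn.ne'
    have h3 := Real.mul_self_sqrt hn'.le
    have h4 := Real.sqrt_pos.2 hn'
    have h5 : (#{a ∈ Ioc 0 n | a ∈ A} : ℝ) ≤ 4 * Real.sqrt n :=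
      (abs_le_of_sq_le_sq' (by nlinarith) (by positivity)).2
    rw [div_le_div_iff₀ hn' h4]
    nlinarith
  · refine lt_of_lt_of_le (by norm_num : (0 : ℝ) < 1 / 256) (le_schnirelmannDensity_iff.2 ?_)
    intro n hn
    have hn' : (0 : ℝ) < n := by exact_mod_cast hn
    rw [div_le_div_iff₀ (by norm_num) hn', one_mul]
    have key : n ≤ #{a ∈ Ioc 0 n | a ∈ A + B} * 256 := by
      by_cases h : n < 128
      · have h1 : 1 ∈ B := by
          obtain ⟨b, hb, c, hc, h⟩ := Set.mem_add.1 (hB ▸ Set.mem_univ 1)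
          rcases (by omega : b = 1 ∨ c = 1) with rfl | rfl <;> assumption
        have : 0 < #{a ∈ Ioc 0 n | a ∈ A + B} := card_pos.2 ⟨1, mem_filter.2
          ⟨mem_Ioc.2 ⟨one_pos, hn⟩, Set.mem_add.2 ⟨0, Or.inl rfl, 1, h1, rfl⟩⟩⟩
        omega
      · set v := Nat.log 4 (n / 32)
        have e : (2 ^ v) ^ 2 = 4 ^ v := by rw [← pow_mul, mul_comm, pow_mul]; norm_num
        have h1 : 4 ^ v ≤ n / 32 := Nat.pow_log_le_self 4 (by omega)
        have h2 : n / 32 < 4 ^ (v + 1) := Nat.lt_pow_succ_log_self (by norm_num) _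
        have h3 : 1 ≤ v := Nat.le_log_of_pow_le (by norm_num) (by omega)
        have h4 := block B hB v h3 n (by omega)
        rw [pow_succ] at h2
        omega
    exact_mod_cast key

end Pool.Agent.Results.MP_b92640_nt.Exists
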